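import Pool.Agent.Q50.HK.LMain

/-!
# Finitely many line bundles decide the semiampleness conjecture for a deformation type

Consider the compact hyperkähler manifolds, projective or not, of one deformation type (a connected
component of the moduli space of marked manifolds), with second Betti number `n`. For every `r` with
`1 ≤ r ≤ n - 2` there are finitely many manifolds `M_i` of this type with Picard number `r`, projective if
`r ≥ 2`, and nef line bundles `L_i` on `M_i` with `q(L_i) = 0`, one for each orbit of the monodromy
group on the isotropic classes up to multiples, such that the conjecture holds for all nef line bundles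
with `q = 0` on all manifolds of this type if and only if all `L_i` are semiample.

For `r = n - 2` the `M_i` are rigid: they have maximal Picard number and are defined over number fields. So
the conjecture for a deformation type, a statement on families with `n - 3` parameters which contain
non-projective manifolds, is equivalent to the semiampleness of finitely many line bundles on
projective manifolds over number fields.
-/

set_option autoImplicit false

universe u

namespace Pool.Agent.Results.MP_be00df_ag.FinitelyManyPairs

open Pool.Agent.Q50.HK

/-- **Finitely many pairs decide.** For `1 ≤ r ≤ n - 2` there are finitely many pairs `(M i, l i)` with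
`M i` of Picard number `r`, projective if `r ≥ 2`, and `l i` the class of a non-trivial nef line bundle
with `q = 0` on `M i`, such that every integral isotropic class is mapped to a multiple of some `l i` by a
monodromy operator, and such that every nef line bundle with `q = 0` on every manifold of the deformation
type is semiample if and only if the line bundles with the classes `l i` on the `M i` are. -/
theorem result {n : ℕ} (T : Bundles.{u} n) (hT : T.Facts) (r : ℕ) (h1 : 1 ≤ r) (hr : r + 2 ≤ n) :
    ∃ (m : ℕ) (M : Fin m → T.Mk) (l : Fin m → V n),
      (∀ i, T.picard (M i) = r ∧ (2 ≤ r → T.Projective (M i)) ∧ T.NefIsotropic (M i) (l i)) ∧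
      (∀ x, IsInt x → x ≠ 0 → T.B x x = 0 →
        ∃ i, ∃ φ ∈ T.mon, ∃ k : ℕ, 0 < k ∧ φ x = (k : ℝ) • l i) ∧
      ((∀ M l, T.NefIsotropic M l → T.semiample M l) ↔ ∀ i, T.semiample (M i) (l i)) :=
  Bundles.finitely_many hT h1 hr

end Pool.Agent.Results.MP_be00df_ag.FinitelyManyPairs
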