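import Pool.Agent.Q34.HT.Main

/-!
# The algebraic dimension of finitely many members of one twistor family decides

Let `M` be any compact hyperkähler manifold of dimension `2n`, projective or not, and let `x` be a Kähler
class on `M` outside countably many real hyperplanes of `H^{1,1}(M, ℝ)`. The hyperkähler metric of `x`
defines the twistor family of `(M, x)` over the projective line. The conjecture that all nef line bundles
`L` with `q(L) = 0` are semiample, for ALL manifolds of the deformation type of `M`, projective or not, holds
if and only if all non-projective members of this one family which carry a non-trivial nef line bundle with
`q = 0` have algebraic dimension `n`. It is enough to know this for finitely many members, which have Picard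
number one.

Proof: every integral isotropic class `l` which is not of type `(1,1)` on `M` is of type `(1,1)` on one
member and its complex conjugate; the choice of `x` implies that the Néron-Severi group of this member consists
of the multiples of `l`, so there are no walls and `l` is nef on the member or on its conjugate. The
orbit of every isotropic class under the monodromy group contains such classes, because its directions are
dense in the real isotropic cone. Finally Matsushita's theorem, and the known case of algebraic
dimension `n`.
-/

set_option autoImplicit false

universe u

namespace Pool.Agent.Results.MP_be00df_ag.OneTwistorFamily

open Pool.Agent.Q50.HK Pool.Agent.Q34.HT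

/-- **One twistor family decides.** For every marked hyperkähler manifold `M` there are countably many nonzero
real classes `d` of type `(1,1)` on `M` such that for every Kähler class `x` on `M` with `q (x, d) ≠ 0` for
all of them: there are finitely many non-projective members `M' i` of the twistor family of `(M, x)` with
Picard number one, which carry non-trivial nef line bundles with `q = 0`, and the following are equivalent.
(1) On all manifolds of the deformation type all non-trivial nef line bundles with `q = 0` are semiample.
(2) All non-projective members of the twistor family which carry a non-trivial nef line bundle with `q = 0`
have algebraic dimension `half`, half of the dimension. (3) The `M' i` have algebraic dimension `half`. -/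
theorem result {n : ℕ} (hn : 4 ≤ n) (T : Lines.{u} n) (hT : T.Facts) (M : T.Mk) :
    ∃ D : Set (V n), D.Countable ∧ (∀ d ∈ D, d ≠ 0 ∧ T.Orth (T.period M) d) ∧
      ∀ x ∈ T.kahler M, (∀ d ∈ D, T.B x d ≠ 0) →
        ∃ (m : ℕ) (M' : Fin m → T.Mk),
          (∀ i, Member T.toModuli M x (M' i) ∧ T.picard (M' i) = 1 ∧ ¬ T.Projective (M' i) ∧
            ∃ l, T.NefIsotropic (M' i) l) ∧
          [(∀ N l, T.NefIsotropic N l → T.semiample N l),
           (∀ N, Member T.toModuli M x N → ¬ T.Projective N → (∃ l, T.NefIsotropic N l) →
              T.adim N = T.half),
           (∀ i, T.adim (M' i) = T.half)].TFAE :=
  Lines.twistor_decides hT hn M

end Pool.Agent.Results.MP_be00df_ag.OneTwistorFamily
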